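import Pool.Agent.TH377.LocG.Main

/-! Degrees of the irreducible factors of a polynomial over a finite field; lifting data. -/

set_option autoImplicit false

namespace Pool.Agent.V11235.SH

open Polynomial Pool.Agent.TH377.LocG

theorem factorDiv_of_coprime {κ : Type} [Field κ] [Finite κ] (N : ℕ) (P : κ[X])
    (h : ∀ n : ℕ, ¬ N ∣ n → IsCoprime (X ^ (Nat.card κ ^ n) - X) P) : FactorDiv N P := by
  classical
  intro q hq hqP
  by_contra hn
  have h1 := h q.natDegree hn
  have hfact : Fact (Irreducible q) := ⟨hq⟩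
  have hfin : FiniteDimensional κ (AdjoinRoot q) := (AdjoinRoot.powerBasis hq.ne_zero).finite
  have hfin' : Finite (AdjoinRoot q) := Module.finite_of_finite κ
  have hcard : Nat.card (AdjoinRoot q) = Nat.card κ ^ q.natDegree := by
    rw [Module.natCard_eq_pow_finrank (K := κ) (V := AdjoinRoot q)]
    congr 1
    rw [(AdjoinRoot.powerBasis hq.ne_zero).finrank, AdjoinRoot.powerBasis_dim]
  have h2 : q ∣ X ^ (Nat.card κ ^ q.natDegree) - X := by
    rw [← AdjoinRoot.mk_eq_zero, map_sub, map_pow, AdjoinRoot.mk_X, sub_eq_zero, ← hcard]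
    let _ := Fintype.ofFinite (AdjoinRoot q)
    rw [Nat.card_eq_fintype_card]
    exact FiniteField.pow_card _
  exact hq.not_isUnit (h1.isUnit_of_dvd' h2 hqP)

theorem coeff_prod_sum {A : Type} [CommRing A] {I : Type} (s : Finset I) (f : I → A[X]) (n : I → ℕ)
    (h : ∀ i ∈ s, (f i).natDegree ≤ n i) :
    (∏ i ∈ s, f i).natDegree ≤ ∑ i ∈ s, n i ∧
      (∏ i ∈ s, f i).coeff (∑ i ∈ s, n i) = ∏ i ∈ s, (f i).coeff (n i) := by
  classical
  induction s using Finset.induction_on with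
  | empty => simp
  | insert i s hi ih =>
    rw [Finset.prod_insert hi, Finset.sum_insert hi, Finset.prod_insert hi]
    obtain ⟨h1, h2⟩ := ih fun j hj => h j (Finset.mem_insert_of_mem hj)
    have h3 := h i (Finset.mem_insert_self i s)
    refine ⟨natDegree_mul_le.trans (add_le_add h3 h1), ?_⟩
    rw [coeff_mul_add_eq_of_natDegree_le h3 h1, h2]

/-- the data of the local theorem over `L` -/
def Data (D : ℕ) {I : Type} [Fintype I] (L : Type) [Field L] (a : L) (f : I → L[X]) : Prop :=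
  ∃ ℓ : ℕ, 0 < ℓ ∧ ℓ ∣ D ∧ ∃ (A : Type) (_ : CommRing A) (_ : IsDomain A)
    (_ : IsDiscreteValuationRing A) (_ : Algebra A L) (_ : IsFractionRing A L) (h : I → A[X]),
    (∀ i, IsUnit (h i).leadingCoeff) ∧ (∀ i, (h i).map (algebraMap A L) = f i) ∧
    ((∏ i, h i).map (IsLocalRing.residue A)).Separable ∧
    FactorDiv (Nat.gcd 2 ℓ * ℓ) ((∏ i, h i).map (IsLocalRing.residue A)) ∧
    ∃ (ϖ t : A) (m : ℤ), Irreducible ϖ ∧ IsUnit t ∧ ¬ (ℓ : ℤ) ∣ m ∧
      a = algebraMap A L t * algebraMap A L ϖ ^ m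

end Pool.Agent.V11235.SH
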