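import Pool.Agent.V11235.SE.Core
import Pool.Agent.V11235.SF.Prim
import Pool.Agent.V11235.SH.Loc

/-! Families over number fields and all extensions of degree prime to `ℓ`: a positive proportion of
all prime numbers. -/

set_option autoImplicit false

namespace Pool.Agent.V11235.SH

open IsDedekindDomain NumberField WithZero Polynomial Pool.Agent.Y157.PS Pool.Agent.Y141.PS
open Pool.Agent.W858.SF Pool.Agent.W858.SG Pool.Agent.V11235.SD Pool.Agent.V11235.SE
open Pool.Agent.V11235.SF

theorem core_all {K L' : Type} [Field K] [NumberField K] [Field L'] [Algebra K L']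
    [FiniteDimensional K L'] (D : ℕ) (hD : D ≠ 0) (g : K[X]) {I : Type} [Fintype I]
    (G : I → K[X][X]) (θ : L') (hg : g ≠ 0)
    (hlc : ∀ i, (G i).leadingCoeff.eval₂ (algebraMap K L') θ ≠ 0)
    (hsep : ((∏ i, G i).map (eval₂RingHom (algebraMap K L') θ)).Separable)
    (hσ : ∃ σ : AlgebraicClosure L' ≃ₐ[L'] AlgebraicClosure L', ∀ n : ℕ,
      ¬ (Nat.gcd 2 D * D) ∣ n → ∀ x : AlgebraicClosure L',
        aeval x ((∏ i, G i).map (eval₂RingHom (algebraMap K L') θ)) = 0 → (σ ^ n) x ≠ x) :
    ∃ S : Set ℕ, (∀ p ∈ S, p.Prime) ∧ Pool.Agent.V11235.SF.Dense S ∧ ∀ p ∈ S,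
      ∃ (χ : 𝓞 K →+* ZMod (p ^ 2)) (Θ : ZMod (p ^ 2)), ∀ a b : 𝓞 K, Good p Θ (χ a) (χ b) →
          (∀ i, ((G i).map (evalRingHom (algebraMap (𝓞 K) K a / algebraMap (𝓞 K) K b))).natDegree =
            (G i).natDegree) ∧
          ∀ (K' : Type) [Field K'] [Algebra K K'] [FiniteDimensional K K'],
            ¬ (D : ℤ) ∣ ((g.map (algebraMap K L')).rootMultiplicity θ : ℤ) *
              Module.finrank K K' →
            Data D K' (algebraMap K K'
              (g.eval (algebraMap (𝓞 K) K a / algebraMap (𝓞 K) K b)))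
              (fun i => ((G i).map (evalRingHom (algebraMap (𝓞 K) K a /
                algebraMap (𝓞 K) K b))).map (algebraMap K K')) := by
  classical
  obtain ⟨F, hF⟩ : ∃ F, F = ∏ i, G i := ⟨_, rfl⟩
  have hG0 : ∀ i, G i ≠ 0 := by
    intro i h0
    apply hlc i
    rw [h0, leadingCoeff_zero, eval₂_zero]
  have hlcF : F.leadingCoeff.eval₂ (algebraMap K L') θ ≠ 0 := by
    rw [hF, leadingCoeff_prod, eval₂_finsetProd, Finset.prod_ne_zero_iff]
    exact fun i _ => hlc i
  rw [← hF] at hsep hσ
  have hczL' : CharZero L' := charZero_of_injective_algebraMap (algebraMap K L').injective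
  have hNF : NumberField L' := NumberField.of_module_finite K L'
  have hOK : Algebra.FiniteType ℤ (𝓞 K) := inferInstance
  -- the other factor of `g`
  have hgL0 : g.map (algebraMap K L') ≠ 0 := (Polynomial.map_ne_zero_iff
    (algebraMap K L').injective).2 hg
  obtain ⟨q, hq, hqθ⟩ := exists_eq_pow_rootMultiplicity_mul_and_not_dvd _ hgL0 θ
  set e := (g.map (algebraMap K L')).rootMultiplicity θ with he
  rw [dvd_iff_isRoot, IsRoot.def] at hqθ
  -- the ring `R'`
  obtain ⟨R', hS, hRR', hfg, hfrac⟩ := exists_ring (R := 𝓞 K) (k := K) (L' := L')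
    (insert θ ((q.support.image fun i => q.coeff i) ∪
      (Finset.univ.biUnion fun s => (G s).support.biUnion fun i =>
        ((G s).coeff i).support.image fun j => algebraMap K L' (((G s).coeff i).coeff j))))
  have hinj' : Function.Injective (algebraMap R' L') := Subtype.val_injective
  have hθR : θ ∈ R' := hS (by simp)
  have hgR : ∀ j, q.coeff j ∈ R' := by
    intro j
    by_cases hj : q.coeff j = 0
    · rw [hj]
      exact zero_mem _
    · apply hS
      simp only [Finset.coe_insert, Set.mem_insert_iff, Finset.mem_coe, Finset.mem_union,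
        Finset.mem_image, mem_support_iff]
      right; left
      exact ⟨j, hj, rfl⟩
  have hFR : ∀ s i j, algebraMap K L' (((G s).coeff i).coeff j) ∈ R' := by
    intro s i j
    by_cases hj : ((G s).coeff i).coeff j = 0
    · rw [hj, map_zero]
      exact zero_mem _
    · have hi : (G s).coeff i ≠ 0 := by
        intro h0
        rw [h0, coeff_zero] at hj
        exact hj rfl
      apply hS
      simp only [Finset.coe_insert, Set.mem_insert_iff, Finset.mem_coe, Finset.mem_union,
        Finset.mem_biUnion, Finset.mem_image, mem_support_iff]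
      right; right
      exact ⟨s, Finset.mem_univ s, i, hi, j, hj, rfl⟩
  let θ' : R' := ⟨θ, hθR⟩
  let ι : 𝓞 K →+* R' :=
    { toFun := fun r => ⟨algebraMap K L' (algebraMap (𝓞 K) K r), hRR' r⟩
      map_one' := Subtype.ext (by simp)
      map_mul' := fun y z => Subtype.ext (by simp)
      map_zero' := Subtype.ext (by simp)
      map_add' := fun y z => Subtype.ext (by simp) }
  have hι : ∀ r, algebraMap R' L' (ι r) = algebraMap K L' (algebraMap (𝓞 K) K r) := fun _ => rfl
  obtain ⟨g', hg1⟩ := exists_lift (algebraMap R' L') q (fun j => ⟨⟨_, hgR j⟩, rfl⟩)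
  have hGex : ∀ s, ∃ G' : R'[X][X], G'.map (mapRingHom (algebraMap R' L')) =
      (G s).map (mapRingHom (algebraMap K L')) := fun s =>
    exists_lift (mapRingHom (algebraMap R' L'))
      ((G s).map (mapRingHom (algebraMap K L'))) (fun i => by
        rw [coeff_map]
        obtain ⟨q, hq⟩ := exists_lift (algebraMap R' L') (((G s).coeff i).map (algebraMap K L'))
          (fun j => by
            rw [coeff_map]
            exact ⟨⟨_, hFR s i j⟩, rfl⟩)
        exact ⟨q, hq⟩)
  choose G' hG1 using hGex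
  obtain ⟨F', hF'⟩ : ∃ F' : R'[X][X], F' = ∏ i, G' i := ⟨_, rfl⟩
  have hF1 : F'.map (mapRingHom (algebraMap R' L')) = F.map (mapRingHom (algebraMap K L')) := by
    rw [hF', hF, Polynomial.map_prod, Polynomial.map_prod]
    exact Finset.prod_congr rfl fun i _ => hG1 i
  set dθ : R' := g'.eval θ' with hdθ
  have hdθ0 : algebraMap R' L' dθ ≠ 0 := by
    intro h0
    apply hqθ
    have h1 : algebraMap R' L' (g'.eval θ') = (g'.map (algebraMap R' L')).eval θ := by
      rw [← eval_map_apply]
      rfl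
    rw [← hg1, ← h1, ← hdθ, h0]
  -- the polynomial `F (θ, x)`
  set F1 := F'.map (evalRingHom θ') with hF1def
  have hF1L : F1.map (algebraMap R' L') = F.map (eval₂RingHom (algebraMap K L') θ) := by
    have h1 : (algebraMap R' L').comp (evalRingHom θ') =
        (evalRingHom θ).comp (mapRingHom (algebraMap R' L')) := by
      apply Polynomial.ringHom_ext
      · intro r
        simp
      · simp only [RingHom.comp_apply, coe_mapRingHom, map_X, coe_evalRingHom, eval_X]
        rfl
    have h2 : (evalRingHom θ).comp (mapRingHom (algebraMap K L')) =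
        eval₂RingHom (algebraMap K L') θ := by
      apply Polynomial.ringHom_ext
      · intro r
        simp
      · simp
    rw [hF1def, Polynomial.map_map, h1, ← Polynomial.map_map, hF1, Polynomial.map_map, h2]
  have hdF1 : F1.natDegree = F.natDegree := by
    rw [← natDegree_map_eq_of_injective hinj' F1, hF1L]
    exact natDegree_map_of_leadingCoeff_ne_zero _ hlcF
  obtain ⟨N, hN0, hN⟩ := ((AE_sub R' hfg).and (AE.unit (algebraMap R' L' dθ) hdθ0)).and
    (AE_unram L')
  -- the polynomial over the integers of `L'`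
  obtain ⟨c, hc, hcf⟩ := IsLocalization.integerNormalization_spec (nonZeroDivisors (𝓞 L'))
    (F1.map (algebraMap R' L'))
  set h := IsLocalization.integerNormalization (nonZeroDivisors (𝓞 L'))
    (F1.map (algebraMap R' L')) with hh
  have hc0 : c ≠ 0 := nonZeroDivisors.ne_zero hc
  have hinj : Function.Injective (algebraMap (𝓞 L') L') := IsFractionRing.injective (𝓞 L') L'
  have hcK : algebraMap (𝓞 L') L' c ≠ 0 := by
    rw [Ne, map_eq_zero_iff _ hinj]
    exact hc0
  have hgf : h.map (algebraMap (𝓞 L') L') = C (algebraMap (𝓞 L') L' c) *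
      F1.map (algebraMap R' L') := by
    rw [hcf]
    ext i
    rw [coeff_smul, coeff_C_mul, Algebra.smul_def]
  have hdeg : h.natDegree = F1.natDegree := by
    rw [← natDegree_map_eq_of_injective hinj h, hgf, natDegree_C_mul hcK,
      natDegree_map_eq_of_injective hinj']
  have hgs : (h.map (algebraMap (𝓞 L') L')).Separable := by
    rw [hgf, hF1L]
    exact Separable.unit_mul (isUnit_C.2 hcK.isUnit) hsep
  have hgσ : ∃ σ : AlgebraicClosure L' ≃ₐ[L'] AlgebraicClosure L', ∀ n : ℕ, ¬ (Nat.gcd 2 D * D) ∣ n →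
      ∀ θ : AlgebraicClosure L', aeval θ (h.map (algebraMap (𝓞 L') L')) = 0 → (σ ^ n) θ ≠ θ := by
    obtain ⟨σ, hσ⟩ := hσ
    refine ⟨σ, fun n hn θ hθ => hσ n hn θ ?_⟩
    rw [hgf, hF1L, map_mul, aeval_C] at hθ
    exact (mul_eq_zero.1 hθ).resolve_left ((_root_.map_ne_zero _).2 hcK)
  obtain ⟨S, hSp, hSd, hSv⟩ := prim_ell_dense L' (Nat.gcd 2 D * D) h N hN0 hgs hgσ
  refine ⟨S, hSp, hSd, fun p hpS => ?_⟩
  have hpp := hSp p hpS
  obtain ⟨v, hvP, hvn⟩ := hSv p hpS
  have hNv : N ∉ v.asIdeal := hvP.1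
  obtain ⟨⟨hPint, hunit⟩, hur⟩ := hN v hNv
  have hPint' : ∀ r : R', v.valuation L' (algebraMap R' L' r) ≤ 1 := hPint
  have hur := hur p hpp
  obtain ⟨χ, hχ⟩ := exists_chi v p hpp hvn hur (algebraMap R' L') hPint'
  refine ⟨χ.comp ι, χ θ', fun a b hgood => ?_⟩
  obtain ⟨hVb, hVab⟩ := good_val v p hpp hvn hur (algebraMap R' L') χ hχ θ' (ι a) (ι b) hgood
  obtain ⟨-, hlcv, hsv, hrv⟩ := hvP
  have hψ : ∀ r : R', vv v (algebraMap L' (v.adicCompletion L') (algebraMap R' L' r) -
      algebraMap L' (v.adicCompletion L') (algebraMap R' L' r)) ≤ exp (-2) := by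
    intro r
    rw [sub_self, map_zero]
    exact zero_le
  rw [hvn] at hrv
  obtain ⟨gB, hgB, hgBd, hgBu, hgBs, hgBr⟩ := red_ell (Nat.gcd 2 D * D) p v hinj' (algebraMap R' L')
    (algebraMap L' (v.adicCompletion L')) hPint' hψ F1 c h hgf hdeg hlcv hsv hrv
  have hfinres := finite_residue v
  have hexp0 : (1 : ℤᵐ⁰) = exp 0 := exp_zero.symm
  exact loc_all p hpp (L' := L') hinj' (vv v)
    (algebraMap L' (v.adicCompletion L')) G hG0 g G' g' e θ' hG1
    (by rw [hg1]; exact hq) (by
      rw [vv_algebraMap]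
      exact hunit) (by
      intro r
      rw [vv_algebraMap]
      exact hPint' r) gB (by rw [hgB, hF1def, hF']) hgBu
    (by rw [hgBd, hdF1, hF]) hgBs (by rw [card_residue, hvn]) D hD hgBr _ _ (ι a) (ι b) (hι a)
    (hι b) (by
      rw [vv_algebraMap]
      exact hVb) (by
      rw [vv_algebraMap]
      exact hVab)

end Pool.Agent.V11235.SH
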