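import Pool.Agent.V11235.SD.Main
import Pool.Agent.V11235.SF.Prim
import Pool.Agent.V11235.SE.Core
import Pool.Agent.V11235.SH.Spec
import Pool.Agent.V11235.SH.Loc

/-! The primes modulo which the parameters close to a ramified fibre are fine: the proof of
`Pool.Agent.V11235.SD.density_pairs` in the form of a positive proportion of all prime numbers. -/

set_option autoImplicit false

namespace Pool.Agent.V11235.SH

open IsDedekindDomain NumberField WithZero Polynomial Pool.Agent.Y157.PS Pool.Agent.Y141.PS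
open Pool.Agent.W858.SF Pool.Agent.W858.SG Pool.Agent.V11235.SD Pool.Agent.V11235.SE
open Pool.Agent.V11235.SF

theorem core_fg {R k L' : Type} [CommRing R] [IsDomain R] [CharZero R]
    [Algebra.FiniteType ℤ R] [Field k] [Algebra R k] [IsFractionRing R k] [Field L'] [Algebra k L']
    [FiniteDimensional k L'] (D : ℕ) (hD : D ≠ 0) (g : k[X]) {I : Type} [Fintype I]
    (G : I → k[X][X]) (θ : L') (hg : g ≠ 0)
    (hlc : ∀ i, (G i).leadingCoeff.eval₂ (algebraMap k L') θ ≠ 0)
    (hsep : ((∏ i, G i).map (eval₂RingHom (algebraMap k L') θ)).Separable)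
    (hσ : ∃ σ : AlgebraicClosure L' ≃ₐ[L'] AlgebraicClosure L', ∀ n : ℕ,
      ¬ (Nat.gcd 2 D * D) ∣ n → ∀ x : AlgebraicClosure L',
        aeval x ((∏ i, G i).map (eval₂RingHom (algebraMap k L') θ)) = 0 → (σ ^ n) x ≠ x) :
    ∃ S : Set ℕ, (∀ p ∈ S, p.Prime) ∧ Pool.Agent.V11235.SF.Dense S ∧ ∀ p ∈ S,
      ∃ (χ : R →+* ZMod (p ^ 2)) (Θ : ZMod (p ^ 2)),
        ∀ a b : R, Good p Θ (χ a) (χ b) →
          (∀ i, ((G i).map (evalRingHom (algebraMap R k a / algebraMap R k b))).natDegree =
            (G i).natDegree) ∧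
          ∀ (K' : Type) [Field K'] [Algebra k K'] [FiniteDimensional k K'],
            ¬ (D : ℤ) ∣ ((g.map (algebraMap k L')).rootMultiplicity θ : ℤ) *
              Module.finrank k K' →
            Data D K' (algebraMap k K' (g.eval (algebraMap R k a / algebraMap R k b)))
              (fun i => ((G i).map (evalRingHom (algebraMap R k a /
                algebraMap R k b))).map (algebraMap k K')) := by
  classical
  obtain ⟨F, hF⟩ : ∃ F, F = ∏ i, G i := ⟨_, rfl⟩
  have hG0 : ∀ i, G i ≠ 0 := by
    intro i h0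
    apply hlc i
    rw [h0, leadingCoeff_zero, eval₂_zero]
  have hlcF : F.leadingCoeff.eval₂ (algebraMap k L') θ ≠ 0 := by
    rw [hF, leadingCoeff_prod, eval₂_finsetProd, Finset.prod_ne_zero_iff]
    exact fun i _ => hlc i
  rw [← hF] at hsep hσ
  have hczk : CharZero k := charZero_of_injective_algebraMap (IsFractionRing.injective R k)
  have hczL' : CharZero L' := charZero_of_injective_algebraMap (algebraMap k L').injective
  -- the other factor of `g`
  have hgL0 : g.map (algebraMap k L') ≠ 0 := (Polynomial.map_ne_zero_iff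
    (algebraMap k L').injective).2 hg
  obtain ⟨q, hq, hqθ⟩ := exists_eq_pow_rootMultiplicity_mul_and_not_dvd _ hgL0 θ
  set e := (g.map (algebraMap k L')).rootMultiplicity θ with he
  rw [dvd_iff_isRoot, IsRoot.def] at hqθ
  -- the ring `R'`
  obtain ⟨R', hS, hRR', hfg, hfrac⟩ := exists_ring (R := R) (k := k) (L' := L')
    (insert θ ((q.support.image fun i => q.coeff i) ∪
      (Finset.univ.biUnion fun s => (G s).support.biUnion fun i =>
        ((G s).coeff i).support.image fun j => algebraMap k L' (((G s).coeff i).coeff j))))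
  have hft : Algebra.FiniteType ℤ R' := R'.fg_iff_finiteType.1 hfg
  have hinj' : Function.Injective (algebraMap R' L') := Subtype.val_injective
  have hθR : θ ∈ R' := hS (by simp)
  have hgR : ∀ j, q.coeff j ∈ R' := by
    intro j
    by_cases hj : q.coeff j = 0
    · rw [hj]
      exact zero_mem _
    · apply hS
      simp only [Finset.coe_insert, Set.mem_insert_iff, Finset.mem_coe, Finset.mem_union,
        Finset.mem_image, mem_support_iff]
      right; left
      exact ⟨j, hj, rfl⟩
  have hFR : ∀ s i j, algebraMap k L' (((G s).coeff i).coeff j) ∈ R' := by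
    intro s i j
    by_cases hj : ((G s).coeff i).coeff j = 0
    · rw [hj, map_zero]
      exact zero_mem _
    · have hi : (G s).coeff i ≠ 0 := by
        intro h0
        rw [h0, coeff_zero] at hj
        exact hj rfl
      apply hS
      simp only [Finset.coe_insert, Set.mem_insert_iff, Finset.mem_coe, Finset.mem_union,
        Finset.mem_biUnion, Finset.mem_image, mem_support_iff]
      right; right
      exact ⟨s, Finset.mem_univ s, i, hi, j, hj, rfl⟩
  let θ' : R' := ⟨θ, hθR⟩
  let ι : R →+* R' :=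
    { toFun := fun r => ⟨algebraMap k L' (algebraMap R k r), hRR' r⟩
      map_one' := Subtype.ext (by simp)
      map_mul' := fun y z => Subtype.ext (by simp)
      map_zero' := Subtype.ext (by simp)
      map_add' := fun y z => Subtype.ext (by simp) }
  have hι : ∀ r, algebraMap R' L' (ι r) = algebraMap k L' (algebraMap R k r) := fun _ => rfl
  obtain ⟨g', hg1⟩ := exists_lift (algebraMap R' L') q (fun j => ⟨⟨_, hgR j⟩, rfl⟩)
  have hGex : ∀ s, ∃ G' : R'[X][X], G'.map (mapRingHom (algebraMap R' L')) =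
      (G s).map (mapRingHom (algebraMap k L')) := fun s =>
    exists_lift (mapRingHom (algebraMap R' L'))
      ((G s).map (mapRingHom (algebraMap k L'))) (fun i => by
        rw [coeff_map]
        obtain ⟨q, hq⟩ := exists_lift (algebraMap R' L') (((G s).coeff i).map (algebraMap k L'))
          (fun j => by
            rw [coeff_map]
            exact ⟨⟨_, hFR s i j⟩, rfl⟩)
        exact ⟨q, hq⟩)
  choose G' hG1 using hGex
  obtain ⟨F', hF'⟩ : ∃ F' : R'[X][X], F' = ∏ i, G' i := ⟨_, rfl⟩
  have hF1 : F'.map (mapRingHom (algebraMap R' L')) = F.map (mapRingHom (algebraMap k L')) := by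
    rw [hF', hF, Polynomial.map_prod, Polynomial.map_prod]
    exact Finset.prod_congr rfl fun i _ => hG1 i
  set dθ : R' := g'.eval θ' with hdθ
  have hdθ0 : dθ ≠ 0 := by
    intro h0
    apply hqθ
    have h1 : algebraMap R' L' (g'.eval θ') = (g'.map (algebraMap R' L')).eval θ := by
      rw [← eval_map_apply]
      rfl
    rw [← hg1, ← h1, ← hdθ, h0, map_zero]
  -- the polynomial `F (θ, x)`
  set F1 := F'.map (evalRingHom θ') with hF1def
  have hF1L : F1.map (algebraMap R' L') = F.map (eval₂RingHom (algebraMap k L') θ) := by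
    have h1 : (algebraMap R' L').comp (evalRingHom θ') =
        (evalRingHom θ).comp (mapRingHom (algebraMap R' L')) := by
      apply Polynomial.ringHom_ext
      · intro r
        simp
      · simp only [RingHom.comp_apply, coe_mapRingHom, map_X, coe_evalRingHom, eval_X]
        rfl
    have h2 : (evalRingHom θ).comp (mapRingHom (algebraMap k L')) =
        eval₂RingHom (algebraMap k L') θ := by
      apply Polynomial.ringHom_ext
      · intro r
        simp
      · simp
    rw [hF1def, Polynomial.map_map, h1, ← Polynomial.map_map, hF1, Polynomial.map_map, h2]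
  have hdF1 : F1.natDegree = F.natDegree := by
    rw [← natDegree_map_eq_of_injective hinj' F1, hF1L]
    exact natDegree_map_of_leadingCoeff_ne_zero _ hlcF
  have hF10 : F1 ≠ 0 := by
    intro h0
    have h1 := hsep.ne_zero
    rw [← hF1L, h0, Polynomial.map_zero] at h1
    exact h1 rfl
  have hlc1 : F1.leadingCoeff ≠ 0 := leadingCoeff_ne_zero.2 hF10
  obtain ⟨M, _, _, P, hU, hsepP, hσP, hemb⟩ := pkgN (R := R') (k := L')
      {F1.leadingCoeff, dθ} (by
    intro u hu
    simp only [Finset.mem_insert, Finset.mem_singleton] at hu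
    rcases hu with rfl | rfl
    · exact hlc1
    · exact hdθ0) F1 (by rw [hF1L]; exact hsep) (Nat.gcd 2 D * D) (by rw [hF1L]; exact hσ)
  obtain ⟨N, hN0, hN⟩ := (hemb.and (AE.unit (P dθ) (hU dθ (by simp)))).and (AE_unram M)
  -- the polynomial over the integers of `M`
  obtain ⟨c, hc, hcf⟩ := IsLocalization.integerNormalization_spec (nonZeroDivisors (𝓞 M)) (F1.map P)
  set h := IsLocalization.integerNormalization (nonZeroDivisors (𝓞 M)) (F1.map P) with hh
  have hc0 : c ≠ 0 := nonZeroDivisors.ne_zero hc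
  have hinj : Function.Injective (algebraMap (𝓞 M) M) := IsFractionRing.injective (𝓞 M) M
  have hcK : algebraMap (𝓞 M) M c ≠ 0 := by
    rw [Ne, map_eq_zero_iff _ hinj]
    exact hc0
  have hgf : h.map (algebraMap (𝓞 M) M) = C (algebraMap (𝓞 M) M c) * F1.map P := by
    rw [hcf]
    ext i
    rw [coeff_smul, coeff_C_mul, Algebra.smul_def]
  have hdegP : (F1.map P).natDegree = F1.natDegree :=
    natDegree_map_of_leadingCoeff_ne_zero P (hU _ (by simp))
  have hdeg : h.natDegree = F1.natDegree := by
    rw [← natDegree_map_eq_of_injective hinj h, hgf, natDegree_C_mul hcK, hdegP]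
  have hgs : (h.map (algebraMap (𝓞 M) M)).Separable := by
    rw [hgf]
    exact Separable.unit_mul (isUnit_C.2 hcK.isUnit) hsepP
  have hgσ : ∃ σ : AlgebraicClosure M ≃ₐ[M] AlgebraicClosure M, ∀ n : ℕ,
      ¬ (Nat.gcd 2 D * D) ∣ n → ∀ θ : AlgebraicClosure M,
        aeval θ (h.map (algebraMap (𝓞 M) M)) = 0 → (σ ^ n) θ ≠ θ := by
    obtain ⟨σ, hσ⟩ := hσP
    refine ⟨σ, fun n hn θ hθ => hσ n hn θ ?_⟩
    rw [hgf, map_mul, aeval_C] at hθ
    exact (mul_eq_zero.1 hθ).resolve_left ((_root_.map_ne_zero _).2 hcK)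
  obtain ⟨S, hSp, hSd, hSv⟩ := prim_ell_dense M (Nat.gcd 2 D * D) h N hN0 hgs hgσ
  refine ⟨S, hSp, hSd, fun p hpS => ?_⟩
  have hpp := hSp p hpS
  obtain ⟨v, hvP, hvn⟩ := hSv p hpS
  have hNv : N ∉ v.asIdeal := hvP.1
  obtain ⟨⟨⟨hPint, ψ, hψ⟩, hunit⟩, hur⟩ := hN v hNv
  have hur := hur p hpp
  obtain ⟨χ, hχ⟩ := exists_chi v p hpp hvn hur P hPint
  refine ⟨χ.comp ι, χ θ', fun a b hgood => ?_⟩
  obtain ⟨hVb, hVab⟩ := good_val v p hpp hvn hur P χ hχ θ' (ι a) (ι b) hgood
  obtain ⟨-, hlcv, hsv, hrv⟩ := hvP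
  rw [hvn] at hrv
  obtain ⟨gB, hgB, hgBd, hgBu, hgBs, hgBr⟩ := red_ell (Nat.gcd 2 D * D) p v hinj' P ψ hPint hψ F1 c
    h hgf hdeg hlcv hsv hrv
  have hfinres := finite_residue v
  have hexp0 : (1 : ℤᵐ⁰) = exp 0 := exp_zero.symm
  exact loc_all p hpp (L' := L') hinj' (vv v) ψ G hG0 g G' g' e θ' hG1
    (by rw [hg1]; exact hq) (by
      rw [hexp0]
      refine close_val v _ (P dθ) 0 (by norm_num) (hψ _) ?_
      rw [hunit, hexp0]) (by
      intro r
      have h1 : ψ (algebraMap R' L' r) = (ψ (algebraMap R' L' r) -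
        algebraMap M (v.adicCompletion M) (P r)) +
        algebraMap M (v.adicCompletion M) (P r) := by ring
      rw [h1]
      refine (Valuation.map_add _ _ _).trans (max_le ((hψ r).trans ?_) ?_)
      · rw [hexp0, exp_le_exp]
        omega
      · rw [vv_algebraMap]
        exact hPint r) gB (by rw [hgB, hF1def, hF']) hgBu
    (by rw [hgBd, hdF1, hF]) hgBs (by rw [card_residue, hvn]) D hD hgBr _ _ (ι a) (ι b) (hι a)
    (hι b) (by
      rw [hexp0]
      refine close_val v _ (P (ι b)) 0 (by norm_num) (hψ _) ?_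
      rw [hVb, hexp0])
    (close_val v _ (P (ι a - θ' * ι b)) (-1) (by norm_num) (hψ _) hVab)

end Pool.Agent.V11235.SH
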