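import Pool.Agent.V11235.SD.Main
import Pool.Agent.V11235.SF.Prim
import Pool.Agent.V11235.SE.Core
import Pool.Agent.V11235.SH.Spec

/-! The primes modulo which the parameters close to a ramified fibre are fine: the proof of
`Pool.Agent.V11235.SD.density_pairs` in the form of a positive proportion of all prime numbers. -/

set_option autoImplicit false

namespace Pool.Agent.V11235.SH

open IsDedekindDomain NumberField WithZero Polynomial Pool.Agent.Y157.PS Pool.Agent.Y141.PS
open Pool.Agent.W858.SF Pool.Agent.W858.SG Pool.Agent.V11235.SD Pool.Agent.V11235.SE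
open Pool.Agent.V11235.SF

theorem core_fg_ell {R k L' : Type} [CommRing R] [IsDomain R] [CharZero R]
    [Algebra.FiniteType ℤ R] [Field k] [Algebra R k] [IsFractionRing R k] [Field L'] [Algebra k L']
    [FiniteDimensional k L'] (ℓ : ℕ) (hℓ : ℓ.Prime) (g : k[X]) (F : k[X][X])
    (h3 : 3 ≤ F.natDegree) (θ : L') (hg : g ≠ 0)
    (hlc : F.leadingCoeff.eval₂ (algebraMap k L') θ ≠ 0)
    (hsep : (F.map (eval₂RingHom (algebraMap k L') θ)).Separable)
    (hσ : ∃ σ : AlgebraicClosure L' ≃ₐ[L'] AlgebraicClosure L', ∀ n : ℕ, ¬ ℓ ∣ n →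
      ∀ x : AlgebraicClosure L',
        aeval x (F.map (eval₂RingHom (algebraMap k L') θ)) = 0 → (σ ^ n) x ≠ x)
    (hdvd : ℓ ∣ F.natDegree) (hℓe : ¬ ℓ ∣ (g.map (algebraMap k L')).rootMultiplicity θ) :
    ∃ S : Set ℕ, (∀ p ∈ S, p.Prime) ∧ Pool.Agent.V11235.SF.Dense S ∧ ∀ p ∈ S,
      ∃ (χ : R →+* ZMod (p ^ 2)) (Θ : ZMod (p ^ 2)),
        ∀ a b : R, Good p Θ (χ a) (χ b) →
          (F.map (evalRingHom (algebraMap R k a / algebraMap R k b))).natDegree =
            F.natDegree ∧
          ∀ (K' : Type) [Field K'] [Algebra k K'] [FiniteDimensional k K'],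
            ¬ ℓ ∣ Module.finrank k K' →
            FineP ℓ (algebraMap k K' (g.eval (algebraMap R k a / algebraMap R k b)))
              ((F.map (evalRingHom (algebraMap R k a / algebraMap R k b))).map
                (algebraMap k K')) := by
  classical
  have hFUN : S_FUN := Pool.Agent.Y674.PS.funct Pool.Agent.Y157.PS.a_inrt
  have hczk : CharZero k := charZero_of_injective_algebraMap (IsFractionRing.injective R k)
  have hczL' : CharZero L' := charZero_of_injective_algebraMap (algebraMap k L').injective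
  -- the other factor of `g`
  have hgL0 : g.map (algebraMap k L') ≠ 0 := (Polynomial.map_ne_zero_iff
    (algebraMap k L').injective).2 hg
  obtain ⟨q, hq, hqθ⟩ := exists_eq_pow_rootMultiplicity_mul_and_not_dvd _ hgL0 θ
  set e := (g.map (algebraMap k L')).rootMultiplicity θ with he
  rw [dvd_iff_isRoot, IsRoot.def] at hqθ
  -- the ring `R'`
  obtain ⟨R', hS, hRR', hfg, hfrac⟩ := exists_ring (R := R) (k := k) (L' := L')
    (insert θ ((q.support.image fun i => q.coeff i) ∪
      (F.support.biUnion fun i => (F.coeff i).support.image fun j =>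
        algebraMap k L' ((F.coeff i).coeff j))))
  have hft : Algebra.FiniteType ℤ R' := R'.fg_iff_finiteType.1 hfg
  have hinj' : Function.Injective (algebraMap R' L') := Subtype.val_injective
  have hθR : θ ∈ R' := hS (by simp)
  have hgR : ∀ j, q.coeff j ∈ R' := by
    intro j
    by_cases hj : q.coeff j = 0
    · rw [hj]
      exact zero_mem _
    · apply hS
      simp only [Finset.coe_insert, Set.mem_insert_iff, Finset.mem_coe, Finset.mem_union,
        Finset.mem_image, mem_support_iff]
      right; left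
      exact ⟨j, hj, rfl⟩
  have hFR : ∀ i j, algebraMap k L' ((F.coeff i).coeff j) ∈ R' := by
    intro i j
    by_cases hj : (F.coeff i).coeff j = 0
    · rw [hj, map_zero]
      exact zero_mem _
    · have hi : F.coeff i ≠ 0 := by
        intro h0
        rw [h0, coeff_zero] at hj
        exact hj rfl
      apply hS
      simp only [Finset.coe_insert, Set.mem_insert_iff, Finset.mem_coe, Finset.mem_union,
        Finset.mem_biUnion, Finset.mem_image, mem_support_iff]
      right; right
      exact ⟨i, hi, j, hj, rfl⟩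
  let θ' : R' := ⟨θ, hθR⟩
  let ι : R →+* R' :=
    { toFun := fun r => ⟨algebraMap k L' (algebraMap R k r), hRR' r⟩
      map_one' := Subtype.ext (by simp)
      map_mul' := fun y z => Subtype.ext (by simp)
      map_zero' := Subtype.ext (by simp)
      map_add' := fun y z => Subtype.ext (by simp) }
  have hι : ∀ r, algebraMap R' L' (ι r) = algebraMap k L' (algebraMap R k r) := fun _ => rfl
  obtain ⟨g', hg1⟩ := exists_lift (algebraMap R' L') q (fun j => ⟨⟨_, hgR j⟩, rfl⟩)
  obtain ⟨F', hF1⟩ := exists_lift (mapRingHom (algebraMap R' L'))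
    (F.map (mapRingHom (algebraMap k L'))) (fun i => by
      rw [coeff_map]
      obtain ⟨q, hq⟩ := exists_lift (algebraMap R' L') ((F.coeff i).map (algebraMap k L'))
        (fun j => by
          rw [coeff_map]
          exact ⟨⟨_, hFR i j⟩, rfl⟩)
      exact ⟨q, hq⟩)
  set dθ : R' := g'.eval θ' with hdθ
  have hdθ0 : dθ ≠ 0 := by
    intro h0
    apply hqθ
    have h1 : algebraMap R' L' (g'.eval θ') = (g'.map (algebraMap R' L')).eval θ := by
      rw [← eval_map_apply]
      rfl
    rw [← hg1, ← h1, ← hdθ, h0, map_zero]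
  -- the polynomial `F (θ, x)`
  set F1 := F'.map (evalRingHom θ') with hF1def
  have hF1L : F1.map (algebraMap R' L') = F.map (eval₂RingHom (algebraMap k L') θ) := by
    have h1 : (algebraMap R' L').comp (evalRingHom θ') =
        (evalRingHom θ).comp (mapRingHom (algebraMap R' L')) := by
      apply Polynomial.ringHom_ext
      · intro r
        simp
      · simp only [RingHom.comp_apply, coe_mapRingHom, map_X, coe_evalRingHom, eval_X]
        rfl
    have h2 : (evalRingHom θ).comp (mapRingHom (algebraMap k L')) =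
        eval₂RingHom (algebraMap k L') θ := by
      apply Polynomial.ringHom_ext
      · intro r
        simp
      · simp
    rw [hF1def, Polynomial.map_map, h1, ← Polynomial.map_map, hF1, Polynomial.map_map, h2]
  have hdF1 : F1.natDegree = F.natDegree := by
    rw [← natDegree_map_eq_of_injective hinj' F1, hF1L]
    exact natDegree_map_of_leadingCoeff_ne_zero _ hlc
  have hF10 : F1 ≠ 0 := by
    intro h0
    rw [h0, natDegree_zero] at hdF1
    omega
  have hlc1 : F1.leadingCoeff ≠ 0 := leadingCoeff_ne_zero.2 hF10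
  obtain ⟨M, _, _, P, hU, hsepP, hσP, hemb⟩ := pkgN (R := R') (k := L')
      {F1.leadingCoeff, dθ} (by
    intro u hu
    simp only [Finset.mem_insert, Finset.mem_singleton] at hu
    rcases hu with rfl | rfl
    · exact hlc1
    · exact hdθ0) F1 (by rw [hF1L]; exact hsep) ℓ (by rw [hF1L]; exact hσ)
  obtain ⟨N, hN0, hN⟩ := (hemb.and (AE.unit (P dθ) (hU dθ (by simp)))).and (AE_unram M)
  -- the polynomial over the integers of `M`
  obtain ⟨c, hc, hcf⟩ := IsLocalization.integerNormalization_spec (nonZeroDivisors (𝓞 M)) (F1.map P)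
  set h := IsLocalization.integerNormalization (nonZeroDivisors (𝓞 M)) (F1.map P) with hh
  have hc0 : c ≠ 0 := nonZeroDivisors.ne_zero hc
  have hinj : Function.Injective (algebraMap (𝓞 M) M) := IsFractionRing.injective (𝓞 M) M
  have hcK : algebraMap (𝓞 M) M c ≠ 0 := by
    rw [Ne, map_eq_zero_iff _ hinj]
    exact hc0
  have hgf : h.map (algebraMap (𝓞 M) M) = C (algebraMap (𝓞 M) M c) * F1.map P := by
    rw [hcf]
    ext i
    rw [coeff_smul, coeff_C_mul, Algebra.smul_def]
  have hdegP : (F1.map P).natDegree = F1.natDegree :=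
    natDegree_map_of_leadingCoeff_ne_zero P (hU _ (by simp))
  have hdeg : h.natDegree = F1.natDegree := by
    rw [← natDegree_map_eq_of_injective hinj h, hgf, natDegree_C_mul hcK, hdegP]
  have hgs : (h.map (algebraMap (𝓞 M) M)).Separable := by
    rw [hgf]
    exact Separable.unit_mul (isUnit_C.2 hcK.isUnit) hsepP
  have hgσ : ∃ σ : AlgebraicClosure M ≃ₐ[M] AlgebraicClosure M, ∀ n : ℕ,
      ¬ ℓ ∣ n → ∀ θ : AlgebraicClosure M,
        aeval θ (h.map (algebraMap (𝓞 M) M)) = 0 → (σ ^ n) θ ≠ θ := by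
    obtain ⟨σ, hσ⟩ := hσP
    refine ⟨σ, fun n hn θ hθ => hσ n hn θ ?_⟩
    rw [hgf, map_mul, aeval_C] at hθ
    exact (mul_eq_zero.1 hθ).resolve_left ((_root_.map_ne_zero _).2 hcK)
  have hdL : (F.natDegree : 𝓞 M) ≠ 0 := by
    rw [Nat.cast_ne_zero]
    omega
  obtain ⟨S, hSp, hSd, hSv⟩ := prim_ell_dense M ℓ h (N * (F.natDegree : 𝓞 M))
    (mul_ne_zero hN0 hdL) hgs hgσ
  refine ⟨S, hSp, hSd, fun p hpS => ?_⟩
  have hpp := hSp p hpS
  obtain ⟨v, hvP, hvn⟩ := hSv p hpS
  have hNv : N ∉ v.asIdeal := fun h0 => hvP.1 (Ideal.mul_mem_right _ _ h0)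
  have hdv : (F.natDegree : 𝓞 M) ∉ v.asIdeal := fun h0 => hvP.1 (Ideal.mul_mem_left _ _ h0)
  obtain ⟨⟨⟨hPint, ψ, hψ⟩, hunit⟩, hur⟩ := hN v hNv
  have hur := hur p hpp
  obtain ⟨χ, hχ⟩ := exists_chi v p hpp hvn hur P hPint
  refine ⟨χ.comp ι, χ θ', fun a b hgood => ?_⟩
  obtain ⟨hVb, hVab⟩ := good_val v p hpp hvn hur P χ hχ θ' (ι a) (ι b) hgood
  obtain ⟨-, hlcv, hsv, hrv⟩ := hvP
  rw [hvn] at hrv
  obtain ⟨gB, hgB, hgBd, hgBu, hgBs, hgBr⟩ := red_ell ℓ p v hinj' P ψ hPint hψ F1 c h hgf
    hdeg hlcv hsv hrv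
  have hfinres := finite_residue v
  have hexp0 : (1 : ℤᵐ⁰) = exp 0 := exp_zero.symm
  obtain ⟨hres1, hres2⟩ := loc_ell hFUN ℓ p hℓ hpp (L' := L') hinj' (vv v) ψ F g F' g' e θ' hF1
    (by rw [hg1]; exact hq) (by
      rw [hexp0]
      refine close_val v _ (P dθ) 0 (by norm_num) (hψ _) ?_
      rw [hunit, hexp0]) (by
      intro r
      have h1 : ψ (algebraMap R' L' r) = (ψ (algebraMap R' L' r) -
        algebraMap M (v.adicCompletion M) (P r)) +
        algebraMap M (v.adicCompletion M) (P r) := by ring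
      rw [h1]
      refine (Valuation.map_add _ _ _).trans (max_le ((hψ r).trans ?_) ?_)
      · rw [hexp0, exp_le_exp]
        omega
      · rw [vv_algebraMap]
        exact hPint r) gB hgB hgBu
    (by rw [hgBd, hdF1]) hgBs (by rw [card_residue, hvn]) hgBr h3 _ _ (ι a) (ι b) (hι a)
    (hι b) (by
      rw [hexp0]
      refine close_val v _ (P (ι b)) 0 (by norm_num) (hψ _) ?_
      rw [hVb, hexp0])
    (close_val v _ (P (ι a - θ' * ι b)) (-1) (by norm_num) (hψ _) hVab)
  refine ⟨hres1, hres2 ?_ hdvd hℓe⟩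
  have h5 : (ℓ : v.adicCompletion M) =
      algebraMap M (v.adicCompletion M) (algebraMap (𝓞 M) M ℓ) := by
    rw [map_natCast, map_natCast]
  rw [h5, vv_algebraMap]
  refine (HeightOneSpectrum.valuation_eq_one_iff_notMem v).2 fun h0 => hdv ?_
  obtain ⟨n, hn⟩ := hdvd
  rw [hn, Nat.cast_mul]
  exact Ideal.mul_mem_right _ _ h0

end Pool.Agent.V11235.SH
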