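import Pool.Agent.V11235.SH.Dvr
import Pool.Agent.V11235.SH.Fac
import Pool.Agent.Y141.PS.FG

/-! The data of the local theorem over all finite extensions. -/

set_option autoImplicit false

namespace Pool.Agent.V11235.SH

open IsDedekindDomain NumberField WithZero Polynomial Pool.Agent.Y157.PS Pool.Agent.Y141.PS
open Pool.Agent.TH377.LocG

theorem dvd_iff' (D c : ℕ) (hD : D ≠ 0) (m : ℤ) :
    (D : ℤ) ∣ m * c ↔ ((D / D.gcd c : ℕ) : ℤ) ∣ m := by
  obtain ⟨g, hg⟩ : ∃ g, g = D.gcd c := ⟨_, rfl⟩
  have hg0 : 0 < g := by
    rw [hg]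
    exact Nat.gcd_pos_of_pos_left _ (Nat.pos_of_ne_zero hD)
  obtain ⟨D', c', hcop, hD', hc'⟩ := Nat.exists_coprime D c
  rw [← hg] at hD' hc' ⊢
  have hdiv : D / g = D' := by
    rw [hD', Nat.mul_div_cancel _ hg0]
  rw [hdiv, hD', hc']
  have hg1 : (g : ℤ) ≠ 0 := by exact_mod_cast hg0.ne'
  push_cast
  rw [← mul_assoc, mul_dvd_mul_iff_right hg1]
  constructor
  · intro h
    exact IsCoprime.dvd_of_dvd_mul_right (Nat.isCoprime_iff_coprime.2 hcop) h
  · intro h
    exact Dvd.dvd.mul_right h _

theorem data_ext {k E : Type} [Field k] [CharZero k] [Field E] (V : Valuation E ℤᵐ⁰)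
    [Finite (IsLocalRing.ResidueField V.valuationSubring)]
    (ψ : k →+* E) (p : ℕ) (hp : p.Prime)
    (hcard : Nat.card (IsLocalRing.ResidueField V.valuationSubring) = p)
    {I : Type} [Fintype I] (f : I → k[X]) (fA : I → V.valuationSubring[X])
    (hf : ∀ i, (fA i).map (algebraMap V.valuationSubring E) = (f i).map ψ)
    (hlc : ∀ i, IsUnit (fA i).leadingCoeff)
    (hs : ((∏ i, fA i).map (IsLocalRing.residue V.valuationSubring)).Separable) (D : ℕ)
    (hD : D ≠ 0)
    (hcop : ∀ n : ℕ, ¬ (Nat.gcd 2 D * D) ∣ n → IsCoprime (X ^ (p ^ n) - X)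
      ((∏ i, fA i).map (IsLocalRing.residue V.valuationSubring)))
    (a : k) (m : ℤ) (ha : V (ψ a) = exp m)
    (K' : Type) [Field K'] [Algebra k K'] [FiniteDimensional k K']
    (hK' : ¬ (D : ℤ) ∣ m * Module.finrank k K') :
    Data D K' (algebraMap k K' a) (fun i => (f i).map (algebraMap k K')) := by
  classical
  rw [dvd_iff' D _ hD] at hK'
  obtain ⟨hdvr, ϖ, t, n, hϖ, ht, hn, hat⟩ := exists_unif_prime (V.comap ψ) a _ m hK' ha
  rw [← dvd_iff' D _ hD] at hn
  let i : (V.comap ψ).valuationSubring →+* V.valuationSubring :=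
    { toFun := fun y => ⟨ψ y, y.2⟩
      map_one' := Subtype.ext (map_one ψ)
      map_mul' := fun y z => Subtype.ext (map_mul ψ _ _)
      map_zero' := Subtype.ext (map_zero ψ)
      map_add' := fun y z => Subtype.ext (map_add ψ _ _) }
  have hinj : Function.Injective i := by
    intro y z hyz
    apply Subtype.ext
    apply ψ.injective
    have := congrArg Subtype.val hyz
    exact this
  have hloc : IsLocalHom i := by
    refine ⟨fun y hy => ?_⟩
    have h1 := (Valuation.Integers.isUnit_iff_valuation_eq_one
      (Valuation.valuationSubring.integers V)).1 hy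
    exact (Valuation.Integers.isUnit_iff_valuation_eq_one
      (Valuation.valuationSubring.integers (V.comap ψ))).2 h1
  have hri : Function.Injective (IsLocalRing.ResidueField.map i) :=
    (IsLocalRing.ResidueField.map i).injective
  have hfin : Finite (IsLocalRing.ResidueField (V.comap ψ).valuationSubring) :=
    Finite.of_injective _ hri
  have hcard0 : Nat.card (IsLocalRing.ResidueField (V.comap ψ).valuationSubring) = p := by
    have h1 : Nat.card (IsLocalRing.ResidueField (V.comap ψ).valuationSubring) ∣ p := by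
      rw [← hcard]
      exact AddSubgroup.card_dvd_of_injective
        (IsLocalRing.ResidueField.map i).toAddMonoidHom hri
    rcases (Nat.dvd_prime hp).1 h1 with h | h
    · have := Finite.one_lt_card (α := IsLocalRing.ResidueField (V.comap ψ).valuationSubring)
      omega
    · exact h
  have hex : ∀ s : I, ∃ f0 : (V.comap ψ).valuationSubring[X],
      f0.map (algebraMap (V.comap ψ).valuationSubring k) = f s := by
    intro s
    have h1 : f s ∈ Polynomial.lifts (algebraMap (V.comap ψ).valuationSubring k) := by
      rw [Polynomial.lifts_iff_coeff_lifts]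
      intro j
      have h5 : ψ ((f s).coeff j) = ((fA s).coeff j : E) := by
        have := congrArg (fun q => q.coeff j) (hf s)
        simp only [coeff_map] at this
        exact this.symm
      exact ⟨⟨(f s).coeff j, by
        change V (ψ ((f s).coeff j)) ≤ 1
        rw [h5]
        exact ((fA s).coeff j).2⟩, rfl⟩
    obtain ⟨f0, hf0⟩ := (Polynomial.mem_lifts _).1 h1
    exact ⟨f0, hf0⟩
  choose f0 hf0 using hex
  have hfB : ∀ s, (f0 s).map i = fA s := by
    intro s
    apply Polynomial.map_injective (algebraMap V.valuationSubring E) Subtype.val_injective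
    rw [hf s, ← hf0 s, Polynomial.map_map, Polynomial.map_map]
    rfl
  have hlcf : ∀ s, IsUnit (f0 s).leadingCoeff := by
    intro s
    have h1 : i (f0 s).leadingCoeff = (fA s).leadingCoeff := by
      rw [← hfB s]
      exact (leadingCoeff_map_of_injective hinj (f0 s)).symm
    have h2 := hlc s
    rw [← h1] at h2
    exact hloc.map_nonunit _ h2
  have hmapres : ((∏ s, f0 s).map (IsLocalRing.residue (V.comap ψ).valuationSubring)).map
      (IsLocalRing.ResidueField.map i) =
      (∏ s, fA s).map (IsLocalRing.residue V.valuationSubring) := by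
    rw [Polynomial.map_map, IsLocalRing.ResidueField.map_comp_residue, ← Polynomial.map_map,
      Polynomial.map_prod (f := i)]
    congr 1
    exact Finset.prod_congr rfl fun s _ => hfB s
  have hsf : ((∏ s, f0 s).map (IsLocalRing.residue (V.comap ψ).valuationSubring)).Separable := by
    rw [← Polynomial.separable_map (IsLocalRing.ResidueField.map i), hmapres]
    exact hs
  have hfd : FactorDiv (Nat.gcd 2 D * D)
      ((∏ s, f0 s).map (IsLocalRing.residue (V.comap ψ).valuationSubring)) := by
    apply factorDiv_of_coprime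
    intro n hn
    rw [hcard0, ← Polynomial.isCoprime_map (IsLocalRing.ResidueField.map i), hmapres,
      Polynomial.map_sub, Polynomial.map_pow, map_X]
    exact hcop n hn
  have hak : a = algebraMap (V.comap ψ).valuationSubring k t *
      algebraMap (V.comap ψ).valuationSubring k ϖ ^ n := hat
  let _ : Algebra (V.comap ψ).valuationSubring K' :=
    ((algebraMap k K').comp (algebraMap (V.comap ψ).valuationSubring k)).toAlgebra
  have hst : IsScalarTower (V.comap ψ).valuationSubring k K' :=
    IsScalarTower.of_algebraMap_eq fun _ => rfl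
  obtain ⟨ℓ, hℓ0, hℓD, A, iA1, iA2, iA3, iA4, iA5, j, hj, hjs, hjf, ϖ', t', m', hϖ', ht', hm', hd'⟩ :=
    dvr_all (k := k) (L := K') (∏ s, f0 s) hsf D hD hfd ϖ t hϖ ht n hn
  have hjinj : Function.Injective j := by
    have h2 : Function.Injective ((algebraMap A K').comp j) := by
      rw [hj]
      exact (algebraMap k K').injective.comp Subtype.val_injective
    exact Function.Injective.of_comp h2
  refine ⟨ℓ, hℓ0, hℓD, A, iA1, iA2, iA3, iA4, iA5, fun s => (f0 s).map j, ?_, ?_, ?_, ?_,
    ϖ', t', m', hϖ', ht', hm', ?_⟩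
  · intro s
    rw [leadingCoeff_map_of_injective hjinj]
    exact (hlcf s).map j
  · intro s
    change ((f0 s).map j).map (algebraMap A K') = (f s).map (algebraMap k K')
    rw [Polynomial.map_map, hj, ← hf0 s, Polynomial.map_map]
    rfl
  · have h1 : ∏ s, (f0 s).map j = (∏ s, f0 s).map j := (Polynomial.map_prod _ _ _).symm
    rw [h1]
    exact hjs
  · have h1 : ∏ s, (f0 s).map j = (∏ s, f0 s).map j := (Polynomial.map_prod _ _ _).symm
    rw [h1]
    exact hjf
  · rw [← hd', hak, map_mul, map_zpow₀]
    rfl

end Pool.Agent.V11235.SH
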